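import Pool.Agent.W2helper64.RK.Pow

set_option autoImplicit false

/-!
# Integers as a square plus an element of the random set of Banks, Ford and Tao

For every prime `p` a residue class `a p` modulo `p` is chosen uniformly and independently. The random
set `R` consists of the natural numbers `n ≥ e ^ 2` which avoid the class `a p` for every prime `p` with
`∏_(q ≤ p) (1 - 1 / q) ≥ 1 / log n`; this is the random sieve model for the primes of Banks, Ford and
Tao, in which the classes `0 mod p` of the sieve of Eratosthenes are replaced by random ones.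

We prove that almost surely every large `n` is `m ^ 2 + r` with `r ∈ R` and a very small square:
`1 ≤ m ≤ (log n) ^ C` with an absolute constant `C`; moreover `m` can be found in every interval
`(y, y + (log n) ^ C]` with `(y + (log n) ^ C) ^ 2 + 8 ≤ n`. The same holds for `k`-th powers.
-/

namespace Pool.Agent.Results.MP_83819a_nt.RandomSieveSquares

open Filter MeasureTheory Topology

/-- the product `V y = ∏_(p ≤ y, p prime) (1 - 1 / p)` -/
noncomputable def V (y : ℕ) : ℝ := ∏ p ∈ (Finset.Icc 1 y).filter Nat.Prime, (1 - 1 / (p : ℝ))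

/-- the random set: all `n ≥ e ^ 2` outside the chosen class `a p` for every prime `p` with
`V p ≥ 1 / log n` -/
def R (a : (p : Nat.Primes) → ZMod (p : ℕ)) : Set ℕ :=
  {n | Real.exp 2 ≤ n ∧ ∀ p : Nat.Primes, 1 ≤ V (p : ℕ) * Real.log n → ((n : ℕ) : ZMod (p : ℕ)) ≠ a p}

/-- the chosen classes `a p`, `p` prime, are independent and uniform modulo `p` -/
noncomputable def law : Measure ((p : Nat.Primes) → ZMod (p : ℕ)) :=
  Measure.infinitePi fun p : Nat.Primes => ProbabilityTheory.uniformOn (Set.univ : Set (ZMod (p : ℕ)))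

theorem powers (k : ℕ) (hk : 1 ≤ k) : ∃ C : ℝ, ∀ᵐ a ∂law, ∀ᶠ n : ℕ in atTop, ∀ y : ℕ,
    ((y : ℝ) + Real.log n ^ C) ^ k + 8 ≤ n →
      ∃ m r : ℕ, y < m ∧ (m : ℝ) ≤ y + Real.log n ^ C ∧ r ∈ R a ∧ n = m ^ k + r := by
  obtain ⟨C, -, h⟩ := Pool.Agent.W2helper64.RK.ae_pow k hk
  refine ⟨C, ?_⟩
  show ∀ᵐ a ∂Pool.Agent.W2helper64.RS.law, _
  filter_upwards [h] with a ha
  filter_upwards [ha] with n hn y hy
  obtain ⟨m, h1, h2, h3, h4⟩ := hn y hy
  exact ⟨m, n - m ^ k, h1, h2, h4, by omega⟩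

/-- * There is a constant `C` such that almost surely every large `n` is `m ^ 2 + r` with
`1 ≤ m ≤ (log n) ^ C` and `r ∈ R`.
* For every `k ≥ 1` there is a constant `C` such that almost surely for every large `n` and every `y` with
`(y + (log n) ^ C) ^ k + 8 ≤ n` one has `n = m ^ k + r` with `y < m ≤ y + (log n) ^ C` and `r ∈ R`. -/
theorem result :
    (∃ C : ℝ, ∀ᵐ a ∂law, ∀ᶠ n : ℕ in atTop, ∃ m r : ℕ, 1 ≤ m ∧ (m : ℝ) ≤ Real.log n ^ C ∧
      r ∈ R a ∧ n = m ^ 2 + r) ∧
    (∀ k : ℕ, 1 ≤ k → ∃ C : ℝ, ∀ᵐ a ∂law, ∀ᶠ n : ℕ in atTop, ∀ y : ℕ,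
      ((y : ℝ) + Real.log n ^ C) ^ k + 8 ≤ n →
        ∃ m r : ℕ, y < m ∧ (m : ℝ) ≤ y + Real.log n ^ C ∧ r ∈ R a ∧ n = m ^ k + r) := by
  refine ⟨?_, powers⟩
  obtain ⟨C, h⟩ := powers 2 (by norm_num)
  refine ⟨C, ?_⟩
  have hsmall : ∀ᶠ n : ℕ in atTop, (Real.log (n : ℝ) ^ C) ^ 2 + 8 ≤ n := by
    have e1 := (isLittleO_log_rpow_rpow_atTop (C * 2) (show (0 : ℝ) < 1 by norm_num)).bound
        (show (0 : ℝ) < 1 / 2 by norm_num)
    filter_upwards [tendsto_natCast_atTop_atTop.eventually e1, eventually_ge_atTop 16] with n hn hn1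
    have hn16 : (16 : ℝ) ≤ n := by exact_mod_cast hn1
    have hl : 0 ≤ Real.log (n : ℝ) := Real.log_natCast_nonneg n
    rw [Real.norm_of_nonneg (by positivity), Real.norm_of_nonneg (by positivity), Real.rpow_one] at hn
    have e2 : (Real.log (n : ℝ) ^ C) ^ 2 = Real.log n ^ (C * 2) := by
      rw [Real.rpow_mul hl]
      norm_num
    rw [e2]
    linarith
  filter_upwards [h] with a ha
  filter_upwards [ha, hsmall] with n hn h2
  obtain ⟨m, r, h3, h4, h5, h6⟩ := hn 0 (by
    rw [Nat.cast_zero, zero_add]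
    exact h2)
  rw [Nat.cast_zero, zero_add] at h4
  exact ⟨m, r, h3, h4, h5, h6⟩

end Pool.Agent.Results.MP_83819a_nt.RandomSieveSquares
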